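import Mathlib
import Pool.Agent.H82.MTFinal

set_option autoImplicit false

/-!
# The monotone triangle polynomial at a row with one hole and one descent

The definitions are in `Pool.Agent.H82.MTDefs`.  The proof extends the count of monotone triangles
by oriented sums to arbitrary integer rows and shows that linear relations between values on
short words (holding in every context) are inherited by the extended summation; one of them is
`α(.., x, x+2, x+1, x+2, ..) = α(.., x+1, x, x+1, x+2, ..) + α(.., x, x+1, x+1, x+2, ..)`,
which moves the descent by one place.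
-/

namespace Pool.Agent.Results.MP_0e5572_co.HoleDescentValue

open Pool.Agent.H82.MT

/-- There is exactly one monotone triangle polynomial in `n + 1` variables, and for all
`1 ≤ i ≤ n - 1` its value at the sequence `(1, ..., i - 1, i + 1, i, i + 1, ..., n)` is
`∑ (i - j) * A_{n,j}`, the sum over `1 ≤ j ≤ n`. -/
theorem result :
    (∀ n : ℕ, ∃! P : MvPolynomial (Fin (n + 1)) ℚ, IsTrianglePolynomial n P) ∧
    ∀ n i : ℕ, 1 ≤ i → i + 1 ≤ n → ∀ P : MvPolynomial (Fin (n + 1)) ℚ, IsTrianglePolynomial n P →
      MvPolynomial.eval (fun p => (holeDescent n i p : ℚ)) P =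
        ∑ j : Fin n, ((i : ℚ) - ((j.val : ℚ) + 1)) * (refinedASM n j : ℚ) :=
  main

end Pool.Agent.Results.MP_0e5572_co.HoleDescentValue
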